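import Pool.Agent.Helper89.Vol5.Goals

/-!
# Packet V58-Q222 (MP_cd13d2_co): the planar inequality for the extremal pattern of `V(5,8)`
(after the packet V47-Q212 of helper69 and V47-Q22 of helper89)
-/

set_option autoImplicit false

namespace Pool.Agent.Helper82.Vol5.PkQ222

open Pool.Agent.Helper89.Vol5

/-- the factors `A = √2 α`, `B = √2 β` -/
theorem factors (p L : ℝ) (hp1 : p ≤ 1) (hL0 : 0 ≤ L) (hLp : L ≤ p) :
    ∃ A B : ℝ, 0 ≤ A ∧ 0 < B ∧ A * B = 2 * L ∧ A ≤ B ∧ B ^ 2 * (2 - p) = 2 ∧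
      A ^ 2 = 2 * (L ^ 2 * (2 - p)) := by
  have h2 : (0 : ℝ) < 2 - p := by linarith
  have hq : (0 : ℝ) < 2 / (2 - p) := by positivity
  set B : ℝ := √(2 / (2 - p)) with hB
  have hB0 : 0 < B := Real.sqrt_pos.2 hq
  have hB2 : B ^ 2 = 2 / (2 - p) := Real.sq_sqrt hq.le
  have hB3 : B ^ 2 * (2 - p) = 2 := by rw [hB2]; field_simp
  have e1 : p * (2 - p) ≤ 1 := by nlinarith only [sq_nonneg (p - 1)]
  have e2 : 2 * L * (2 - p) ≤ 2 := by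
    have := mul_le_mul_of_nonneg_right hLp h2.le
    linarith only [this, e1]
  have hL1 : 2 * L ≤ B ^ 2 := by
    rw [hB2, le_div_iff₀ h2]; exact e2
  have hAB : 2 * L / B ≤ B := by
    rw [div_le_iff₀ hB0]; nlinarith only [hL1]
  refine ⟨2 * L / B, B, div_nonneg (by linarith only [hL0]) hB0.le, hB0,
    div_mul_cancel₀ _ hB0.ne', hAB, hB3, ?_⟩
  rw [div_pow, hB2]
  field_simp
  try ring

theorem thm (h : G_J58) : G_Q222 := by
  intro C hC l1 l2 l3 b0 b1 c0 c1 u0 u1 w0 hl1 hl1' hl2 hl2' hl3 hl3' huw H1 H2 H3 H4 H5 H6 H7 H8 H9 H10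
  have hp0 : 0 ≤ l1 * l3 := mul_nonneg hl1 hl3
  have hp1 : l1 * l3 ≤ 1 := mul_le_one₀ hl1' hl3 hl3'
  have hpsq : 2 * (l1 * l3) ≤ l1 ^ 2 + l3 ^ 2 := by nlinarith only [sq_nonneg (l1 - l3)]
  have hLe : l1 * l2 * l3 = l1 * l3 * l2 := by ring
  rw [hLe]
  generalize hp : l1 * l3 = p at hp0 hp1 hpsq ⊢
  have hL0 : 0 ≤ p * l2 := mul_nonneg hp0 hl2
  have hLp : p * l2 ≤ p := mul_le_of_le_one_right hp0 hl2'
  obtain ⟨A, B, hA0, hB0, hAB, hAB', hB3, hA3⟩ := factors p (p * l2) hp1 hL0 hLp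
  have hp2 : p ^ 2 * (2 - p) ≤ 1 := by
    nlinarith only [hp0, hp1, mul_nonneg hp0 (sub_nonneg.2 hp1), sq_nonneg (p - 1),
      mul_nonneg (sub_nonneg.2 hp1) (sq_nonneg (p - 1)), mul_nonneg (sub_nonneg.2 hp1) (sq_nonneg p)]
  have hp3 : 0 ≤ p ^ 2 * (2 - p) := mul_nonneg (sq_nonneg p) (by linarith only [hp1])
  have hl2s : l2 ^ 2 ≤ 1 := pow_le_one₀ hl2 hl2'
  obtain ⟨n, hn⟩ : ∃ n : ℝ, n = (w0 - u0) / 2 := ⟨_, rfl⟩
  have hw : w0 = u0 + 2 * n := by linarith only [hn]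
  subst hw
  have hn0 : 0 ≤ n := by linarith only [huw]
  have hn1 : n ^ 2 ≤ 1 / 4 := by nlinarith only [H10]
  have key := h C hC (A * n) (A * |u0 + n - b0|) (A * |u1 - b1|) (B * |c0|) (B * |c1|)
    (B * |c1 - 2 * u1|)
    (mul_nonneg hA0 hn0) ?_ (mul_nonneg hA0 (abs_nonneg _)) (mul_nonneg hA0 (abs_nonneg _))
    (mul_nonneg hB0.le (abs_nonneg _)) (mul_nonneg hB0.le (abs_nonneg _))
    (mul_nonneg hB0.le (abs_nonneg _)) ?_ ?_ ?_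
  · have e : (b0 * c1 - b1 * c0) + (c0 * u1 - c1 * u0) + (u0 * u1 - u1 * (u0 + 2 * n)) =
        -(u0 + n - b0) * c1 + (u1 - b1) * c0 + n * (c1 - 2 * u1) := by ring
    have hb : |(b0 * c1 - b1 * c0) + (c0 * u1 - c1 * u0) + (u0 * u1 - u1 * (u0 + 2 * n))| ≤
        |u0 + n - b0| * |c1| + |u1 - b1| * |c0| + n * |c1 - 2 * u1| := by
      rw [e]
      refine (abs_add_le _ _).trans (add_le_add ((abs_add_le _ _).trans (add_le_add ?_ ?_)) ?_)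
      · rw [abs_mul, abs_neg]
      · rw [abs_mul]
      · rw [abs_mul, abs_of_nonneg hn0]
    calc 2 * (p * l2 * |(b0 * c1 - b1 * c0) + (c0 * u1 - c1 * u0) + (u0 * u1 - u1 * (u0 + 2 * n))|)
        ≤ 2 * (p * l2 * (|u0 + n - b0| * |c1| + |u1 - b1| * |c0| + n * |c1 - 2 * u1|)) :=
          mul_le_mul_of_nonneg_left (mul_le_mul_of_nonneg_left hb hL0) (by norm_num)
      _ = (2 * (p * l2)) * (|u0 + n - b0| * |c1| + |u1 - b1| * |c0| + n * |c1 - 2 * u1|) := by ring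
      _ = (A * |u0 + n - b0|) * (B * |c1|) + (A * |u1 - b1|) * (B * |c0|) +
            (A * n) * (B * |c1 - 2 * u1|) := by
          rw [← hAB]; ring
      _ ≤ C := key
  · -- `t² ≤ 1/2`
    have h1 : A ^ 2 ≤ 2 := by
      rw [hA3]
      have h2 : (p * l2) ^ 2 * (2 - p) = p ^ 2 * (2 - p) * l2 ^ 2 := by ring
      have h3 := mul_le_mul hp2 hl2s (sq_nonneg l2) (by norm_num : (0 : ℝ) ≤ 1)
      linarith only [h2, h3]
    rw [mul_pow]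
    have h4 := mul_le_mul h1 hn1 (sq_nonneg n) (by norm_num : (0 : ℝ) ≤ 2)
    linarith only [h4]
  · -- `(k + t)² + M² ≤ 3/2`
    have h3 : (|u0 + n - b0| + n) ^ 2 + |u1 - b1| ^ 2 ≤ 1 - l2 ^ 2 / 4 := by
      rw [sq_abs]
      rcases abs_cases (u0 + n - b0) with ⟨ha, _⟩ | ⟨ha, _⟩
      · rw [ha]; nlinarith only [H7]
      · rw [ha]; nlinarith only [H6]
    have h4 := mul_le_mul_of_nonneg_left h3 (sq_nonneg A)
    have e1 : (A * |u0 + n - b0| + A * n) ^ 2 + (A * |u1 - b1|) ^ 2 =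
        A ^ 2 * ((|u0 + n - b0| + n) ^ 2 + |u1 - b1| ^ 2) := by ring
    rw [e1]
    have h6 : A ^ 2 * (1 - l2 ^ 2 / 4) = 2 * (p ^ 2 * (2 - p) * (l2 ^ 2 * (1 - l2 ^ 2 / 4))) := by
      rw [hA3]; ring
    have h7 : l2 ^ 2 * (1 - l2 ^ 2 / 4) ≤ 3 / 4 := by
      nlinarith only [hl2s, sq_nonneg l2, mul_nonneg (sq_nonneg l2) (sub_nonneg.2 hl2s)]
    have h8 : 0 ≤ l2 ^ 2 * (1 - l2 ^ 2 / 4) :=
      mul_nonneg (sq_nonneg _) (by linarith only [hl2s])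
    have h9 := mul_le_mul hp2 h7 h8 (by norm_num : (0 : ℝ) ≤ 1)
    linarith only [h4, h6, h9]
  · -- `g1² + g2² ≤ 1`
    rw [mul_pow, mul_pow, sq_abs, sq_abs]
    have h1 : c0 ^ 2 + c1 ^ 2 ≤ (2 - p) / 2 := by linarith only [H2, hpsq]
    have h2 := mul_le_mul_of_nonneg_left h1 (sq_nonneg B)
    linarith only [h2, hB3]
  · -- the third condition
    have hs : (c1 - 2 * u1) ^ 2 + (c0 ^ 2 + c1 ^ 2) + 4 * n ^ 2 + 4 * (n * |c0|) ≤ 4 - p := by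
      rcases abs_cases c0 with ⟨ha, _⟩ | ⟨ha, _⟩
      · rw [ha]
        nlinarith only [sq_nonneg (c0 - u0 - (u0 + 2 * n)), H5, H8, hpsq]
      · rw [ha]
        nlinarith only [sq_nonneg (c0 - u0 - (u0 + 2 * n)), H4, H9, hpsq]
    have hB2 : 0 ≤ B ^ 2 := sq_nonneg B
    have hA2 : A ^ 2 ≤ B ^ 2 := pow_le_pow_left₀ hA0 hAB' 2
    have hAB2 : A * B ≤ B ^ 2 := by nlinarith only [hAB', hB0]
    have k2 := mul_le_mul_of_nonneg_right hA2 (by positivity : 0 ≤ 4 * n ^ 2)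
    have k3 := mul_le_mul_of_nonneg_right hAB2 (by positivity : 0 ≤ 4 * (n * |c0|))
    have k4 := mul_le_mul_of_nonneg_left hs hB2
    have k5 : B ^ 2 * (4 - p) ≤ 6 := by
      have h1 : B ^ 2 ≤ 2 := by nlinarith only [hB3, hp1, hB2]
      linarith only [h1, hB3]
    have e1 : (B * |c1 - 2 * u1|) ^ 2 = B ^ 2 * (c1 - 2 * u1) ^ 2 := by
      rw [mul_pow, sq_abs]
    have e2 : (B * |c0|) ^ 2 = B ^ 2 * c0 ^ 2 := by rw [mul_pow, sq_abs]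
    have e3 : (B * |c1|) ^ 2 = B ^ 2 * c1 ^ 2 := by rw [mul_pow, sq_abs]
    rw [e1, e2, e3]
    nlinarith only [k2, k3, k4, k5]

end Pool.Agent.Helper82.Vol5.PkQ222
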